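import Mathlib

namespace Pool.Agent.H.MP_172a5c_ag

open MvPolynomial

def H (w : ℝ) : ℝ := 1 - 8 * w ^ 8 + 20 * w ^ 16 - 16 * w ^ 24 + 2 * w ^ 32 - 5 * w + 6 * w ^ 2

def E (l r : ℝ) : ℝ := -64 * r ^ 8 + 320 * l ^ 16 - 384 * r ^ 24 + 64 * l ^ 32 - 5 * r + 12 * l ^ 2

lemma E_mono {l w r : ℝ} (h0 : 0 ≤ l) (h1 : l ≤ w) (h2 : w ≤ r) : E l r ≤ E w w ∧ E w w ≤ E r l := by
  have a := fun n => pow_le_pow_left₀ h0 h1 n
  have b := fun n => pow_le_pow_left₀ (h0.trans h1) h2 n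
  unfold E
  constructor <;> linarith [a 2, a 8, a 16, a 24, a 32, b 2, b 8, b 16, b 24, b 32]

lemma root (l r : ℝ) (h0 : 0 ≤ l) (h : l ≤ r) (hs : (H l ≤ 0 ∧ 0 ≤ H r) ∨ (H r ≤ 0 ∧ 0 ≤ H l))
    (hE : 0 < E l r ∨ E r l < 0) : ∃ w, l ≤ w ∧ w ≤ r ∧ H w = 0 ∧ E w w ≠ 0 := by
  have c : ContinuousOn H (Set.Icc l r) := by unfold H; fun_prop
  obtain ⟨w, hw, e⟩ : ∃ w ∈ Set.Icc l r, H w = 0 := by
    rcases hs with hs | hs
    · exact intermediate_value_Icc h c hs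
    · exact intermediate_value_Icc' h c hs
  have := E_mono h0 hw.1 hw.2
  refine ⟨w, hw.1, hw.2, e, fun z => ?_⟩
  rcases hE with k | k <;> linarith [this.1, this.2]

def Good (x y : ℝ) : Prop :=
  x ^ 16 + y ^ 16 - 1 = 0 ∧ x ^ 129 * y + x * y ^ 129 - 5 * x ^ 3 * y ^ 3 + 6 * x ^ 5 * y ^ 5 = 0 ∧
    16 * x ^ 15 * (x ^ 129 + 129 * x * y ^ 128 - 15 * x ^ 3 * y ^ 2 + 30 * x ^ 5 * y ^ 4) -
      16 * y ^ 15 * (129 * x ^ 128 * y + y ^ 129 - 15 * x ^ 2 * y ^ 3 + 30 * x ^ 4 * y ^ 5) ≠ 0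

lemma good {x y w : ℝ} (h1 : x ^ 16 + y ^ 16 = 1) (h2 : x ^ 2 * y ^ 2 = w) (h3 : x ^ 16 ≠ y ^ 16)
    (hH : H w = 0) (hE : E w w ≠ 0) : Good x y := by
  have p : w ^ 8 = x ^ 16 * y ^ 16 := by rw [← h2]; ring
  have e1 : x ^ 128 = (x ^ 16) ^ 8 := by ring
  have e2 : y ^ 128 = (y ^ 16) ^ 8 := by ring
  have q : ∀ n, w ^ (8 * n) = (x ^ 16 * y ^ 16) ^ n := fun n => by rw [pow_mul, p]
  have hH' : 1 - 8 * (x ^ 16 * y ^ 16) + 20 * (x ^ 16 * y ^ 16) ^ 2 - 16 * (x ^ 16 * y ^ 16) ^ 3 +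
      2 * (x ^ 16 * y ^ 16) ^ 4 - 5 * w + 6 * w ^ 2 = 0 := by
    rw [← q 2, ← q 3, ← q 4, ← p]; exact hH
  have hE' : E w w = -64 * (x ^ 16 * y ^ 16) + 320 * (x ^ 16 * y ^ 16) ^ 2 -
      384 * (x ^ 16 * y ^ 16) ^ 3 + 64 * (x ^ 16 * y ^ 16) ^ 4 - 5 * w + 12 * w ^ 2 := by
    rw [← q 2, ← q 3, ← q 4, ← p]; rfl
  have a : x ^ 129 * y + x * y ^ 129 - 5 * x ^ 3 * y ^ 3 + 6 * x ^ 5 * y ^ 5 =
      x * y * (x ^ 128 + y ^ 128 - 5 * w + 6 * w ^ 2) := by rw [← h2]; ring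
  have b : 16 * x ^ 15 * (x ^ 129 + 129 * x * y ^ 128 - 15 * x ^ 3 * y ^ 2 + 30 * x ^ 5 * y ^ 4) -
      16 * y ^ 15 * (129 * x ^ 128 * y + y ^ 129 - 15 * x ^ 2 * y ^ 3 + 30 * x ^ 4 * y ^ 5) =
      16 * x ^ 16 * (x ^ 128 + 129 * y ^ 128 - 15 * w + 30 * w ^ 2) -
      16 * y ^ 16 * (129 * x ^ 128 + y ^ 128 - 15 * w + 30 * w ^ 2) := by rw [← h2]; ring
  have hy : y ^ 16 = 1 - x ^ 16 := by linarith
  have g : x ^ 128 + y ^ 128 - 5 * w + 6 * w ^ 2 = 0 := by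
    rw [e1, e2]
    rw [hy] at hH' ⊢
    generalize x ^ 16 = X at hH' ⊢
    linear_combination hH'
  refine ⟨by linarith, by rw [a, g, mul_zero], fun z => ?_⟩
  refine mul_ne_zero (mul_ne_zero (show (32 : ℝ) ≠ 0 by norm_num) (sub_ne_zero.2 h3)) hE ?_
  rw [b, e1, e2] at z
  rw [e1, e2] at g
  rw [hE']
  rw [hy] at z g ⊢
  generalize x ^ 16 = X at z g ⊢
  linear_combination z - 16 * (2 * X - 1) * g

lemma lift {w : ℝ} (h0 : 0 < w) (h : w ^ 8 < 1 / 4) :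
    ∃ a b : ℝ, 0 < b ∧ b < a ∧ a ^ 16 + b ^ 16 = 1 ∧ a ^ 2 * b ^ 2 = w := by
  have p0 : 0 < w ^ 8 := by positivity
  have s0 : 0 < √(1 - 4 * w ^ 8) := Real.sqrt_pos.2 (by linarith)
  have s2 : √(1 - 4 * w ^ 8) ^ 2 = 1 - 4 * w ^ 8 := Real.sq_sqrt (by linarith)
  generalize √(1 - 4 * w ^ 8) = s at s0 s2
  have s1 : s < 1 := by nlinarith
  obtain ⟨a, a0, ha⟩ : ∃ a : ℝ, 0 ≤ a ∧ a ^ 16 = (1 + s) / 2 :=
    ⟨((1 + s) / 2) ^ ((16 : ℕ) : ℝ)⁻¹, by positivity, Real.rpow_inv_natCast_pow (by positivity)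
      (by norm_num)⟩
  have t : 0 ≤ (1 - s) / 2 := by linarith
  obtain ⟨b, b0, hb⟩ : ∃ b : ℝ, 0 ≤ b ∧ b ^ 16 = (1 - s) / 2 :=
    ⟨((1 - s) / 2) ^ ((16 : ℕ) : ℝ)⁻¹, by positivity, Real.rpow_inv_natCast_pow t (by norm_num)⟩
  refine ⟨a, b, b0.lt_of_ne fun e => ?_, lt_of_pow_lt_pow_left₀ 16 a0 (by linarith), by linarith,
    (pow_left_inj₀ (by positivity) h0.le (show 8 ≠ 0 by norm_num)).1 ?_⟩
  · rw [← e] at hb
    norm_num at hb
    linarith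
  · calc _ = a ^ 16 * b ^ 16 := by ring
      _ = _ := by rw [ha, hb]; linarith

lemma four : ∃ a b : Fin 4 → ℝ, (∀ k, 0 < b k ∧ b k < a k ∧ ∀ x y, x ^ 2 = a k ^ 2 → y ^ 2 = b k ^ 2 →
    Good x y ∧ Good y x) ∧ ∀ k l, a k ^ 2 * b k ^ 2 = a l ^ 2 * b l ^ 2 → k = l := by
  have r : ∀ k : Fin 4, ∃ w, (![33 / 100, 55 / 100, 761 / 1000, 818 / 1000] k : ℝ) ≤ w ∧
      w ≤ ![34 / 100, 56 / 100, 762 / 1000, 819 / 1000] k ∧ H w = 0 ∧ E w w ≠ 0 := by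
    intro k
    fin_cases k <;> refine root _ _ ?_ ?_ ?_ ?_ <;> norm_num [H, E]
  choose w w1 w2 w3 w4 using r
  have b : ∀ k, 0 < w k ∧ w k ≤ 819 / 1000 := by
    intro k
    have := w1 k
    have := w2 k
    fin_cases k <;> simp at * <;> constructor <;> linarith
  choose a c h1 h2 h3 h4 using fun k => lift (b k).1
    ((pow_le_pow_left₀ (b k).1.le (b k).2 8).trans_lt (by norm_num))
  refine ⟨a, c, fun k => ⟨h1 k, h2 k, fun x y hx hy => ?_⟩, fun k l e => ?_⟩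
  · have e1 : x ^ 16 = a k ^ 16 := by
      calc _ = (x ^ 2) ^ 8 := by ring
        _ = _ := by rw [hx]; ring
    have e2 : y ^ 16 = c k ^ 16 := by
      calc _ = (y ^ 2) ^ 8 := by ring
        _ = _ := by rw [hy]; ring
    have n : c k ^ 16 < a k ^ 16 := pow_lt_pow_left₀ (h2 k) (h1 k).le (by norm_num)
    exact ⟨good (by rw [e1, e2, h3]) (by rw [hx, hy, h4]) (by rw [e1, e2]; exact n.ne') (w3 k) (w4 k),
      good (by rw [e1, e2, add_comm, h3]) (by rw [hx, hy, mul_comm, h4])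
        (by rw [e1, e2]; exact n.ne) (w3 k) (w4 k)⟩
  · rw [h4, h4] at e
    have := w1 k
    have := w2 k
    have := w1 l
    have := w2 l
    fin_cases k <;> fin_cases l <;> simp at * <;> linarith

lemma many : ∃ S : Finset (Fin 2 → ℝ), S.card = 36 ∧ ∀ p ∈ S, Good (p 0) (p 1) := by
  obtain ⟨a, b, h, inj⟩ := four
  let sg : Bool → ℝ := fun e => if e then 1 else -1
  have sq : ∀ e (x : ℝ), (sg e * x) ^ 2 = x ^ 2 := fun e x => by cases e <;> simp [sg]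
  let φ : (Fin 4 × Bool × Bool × Bool) ⊕ (Bool × Bool) → Fin 2 → ℝ := fun i => match i with
    | .inl (k, s, e, f) => if s then ![sg e * a k, sg f * b k] else ![sg e * b k, sg f * a k]
    | .inr (s, e) => if s then ![sg e, 0] else ![0, sg e]
  refine ⟨Finset.univ.image φ, ?_, ?_⟩
  · rw [Finset.card_image_of_injective]
    · simp
    rintro (⟨k, s, e, f⟩ | ⟨s, e⟩) (⟨k', s', e', f'⟩ | ⟨s', e'⟩) q
    all_goals
      have q0 := congrFun q 0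
      have q1 := congrFun q 1
    · obtain rfl : k = k' := by
        have t : (φ (.inl (k, s, e, f)) 0) ^ 2 * (φ (.inl (k, s, e, f)) 1) ^ 2 =
            (φ (.inl (k', s', e', f')) 0) ^ 2 * (φ (.inl (k', s', e', f')) 1) ^ 2 := by rw [q]
        refine inj k k' ?_
        cases s <;> cases s' <;> simp [φ, sq] at t <;> linarith
      obtain ⟨h1, h2, -⟩ := h k
      cases s <;> cases s' <;> cases e <;> cases e' <;> cases f <;> cases f' <;>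
        simp [φ, sg] at q0 q1 ⊢ <;> linarith
    · obtain ⟨h1, h2, -⟩ := h k
      cases s <;> cases s' <;> cases e <;> cases f <;> simp [φ, sg] at q0 q1 <;> linarith
    · obtain ⟨h1, h2, -⟩ := h k'
      cases s <;> cases s' <;> cases e' <;> cases f' <;> simp [φ, sg] at q0 q1 <;> linarith
    · cases s <;> cases s' <;> cases e <;> cases e' <;> simp [φ, sg] at q0 q1 ⊢ <;> linarith
  · intro p hp
    obtain ⟨i, -, rfl⟩ := Finset.mem_image.1 hp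
    rcases i with ⟨k, s, e, f⟩ | ⟨s, e⟩
    · cases s
      · exact ((h k).2.2 _ _ (sq f _) (sq e _)).2
      · exact ((h k).2.2 _ _ (sq e _) (sq f _)).1
    · cases s <;> cases e <;> norm_num [φ, sg, Good]

noncomputable def mon (a b : ℕ) (c : ℝ) : MvPolynomial (Fin 2) ℝ :=
  monomial (Finsupp.single 0 a + Finsupp.single 1 b) c

lemma mon_eq (a b : ℕ) (c : ℝ) : mon a b c = C c * X 0 ^ a * X 1 ^ b := by
  simp [mon, X_pow_eq_monomial, C_mul_monomial, monomial_mul]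

lemma mon_card (a b : ℕ) (c : ℝ) : (mon a b c).support.card ≤ 1 :=
  (Finset.card_le_card support_monomial_subset).trans (by simp)

lemma add_card (p q : MvPolynomial (Fin 2) ℝ) :
    (p + q).support.card ≤ p.support.card + q.support.card :=
  (Finset.card_le_card support_add).trans (Finset.card_union_le _ _)

end Pool.Agent.H.MP_172a5c_ag
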